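import Pool.Agent.Helper12.SO.PhaseOne

set_option autoImplicit false

/-! SO-8: phase two, all the weights. -/

namespace Pool.Agent.Helper28.SO

/-- The state after processing all rows `k` with `m ≤ k`. -/
def EWInv {n d : ℕ} (v : Fin n → Fin d → ℕ) (N : Fin n → Finset (Fin d))
    (w0 w : Fin n → Fin d → ℝ) (σ : Fin n → Fin n → Fin d) (m : ℕ) : Prop :=
  Generic w ∧ (∀ i, ∀ c ∈ N i, w i c = w0 i c) ∧
  (∀ k l : Fin n, m ≤ k.val → l < k → σ k l ∈ N l ∧
    ∀ c ∈ N l, c ≠ σ k l → w l (σ k l) - w k (σ k l) < w l c - w k c) ∧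
  (∀ k j : Fin n, m ≤ k.val → k < j →
    ∀ c, c ≠ σ k j → w j (σ k j) - w k (σ k j) < w j c - w k c) ∧
  (∀ k l : Fin n, m ≤ k.val → m ≤ l.val → l < k →
    ∀ c, c ≠ σ k l → w l (σ k l) - w k (σ k l) < w l c - w k c) ∧
  (∀ k : Fin n, m ≤ k.val → ∀ c,
    (Finset.univ.filter (fun j => j ≠ k ∧ σ k j = c)).card = v k c)

theorem ew_bound {n d : ℕ} (w : Fin n → Fin d → ℝ) : ∃ B : ℝ, 0 ≤ B ∧ ∀ i c, |w i c| ≤ B := by
  refine ⟨∑ i, ∑ c, |w i c|, Finset.sum_nonneg fun i _ => Finset.sum_nonneg fun c _ => abs_nonneg _,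
    fun i c => ?_⟩
  calc |w i c| ≤ ∑ c, |w i c| :=
        Finset.single_le_sum (f := fun c => |w i c|) (fun c _ => abs_nonneg _) (Finset.mem_univ c)
    _ ≤ ∑ i, ∑ c, |w i c| :=
        Finset.single_le_sum (f := fun i => ∑ c, |w i c|)
          (fun i _ => Finset.sum_nonneg fun c _ => abs_nonneg _) (Finset.mem_univ i)

theorem ew_step {n d : ℕ} (hd : 1 ≤ d) (v : Fin n → Fin d → ℕ)
    (hv : ∀ i, ∑ k, v i k = n - 1) (N : Fin n → Finset (Fin d)) (hN : IsLadder v N)
    (w0 : Fin n → Fin d → ℝ) (τ : Fin n → Fin n → Fin d)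
    (hτ : ∀ k l, l < k → N l ⊆ N k → τ k l ∈ N l ∧
        ∀ c ∈ N l, c ≠ τ k l → w0 l (τ k l) - w0 k (τ k l) < w0 l c - w0 k c)
    (hcount : ∀ k, ∀ c ∈ N k,
        (Finset.univ.filter (fun l => l < k ∧ N l ⊆ N k ∧ τ k l = c)).card = v k c)
    (k : Fin n) (w : Fin n → Fin d → ℝ) (σ : Fin n → Fin n → Fin d)
    (hinv : EWInv v N w0 w σ (k.val + 1)) :
    ∃ (w' : Fin n → Fin d → ℝ) (σ' : Fin n → Fin n → Fin d), EWInv v N w0 w' σ' k.val := by
  classical
  obtain ⟨hgen, h0, ha, hb, hc, hdd⟩ := hinv
  obtain ⟨B, hB0, hB⟩ := ew_bound w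
  set C : Finset (Fin d) := (N k)ᶜ with hC
  set J : Finset (Fin n) := Finset.univ.filter (fun j => j ≠ k ∧ ¬ (j < k ∧ N j ⊆ N k)) with hJ
  set I : Fin n → Finset (Fin d) := fun j => if k < j then C else N j \ N k with hI
  have hmemJ : ∀ j, j ∈ J ↔ j ≠ k ∧ ¬ (j < k ∧ N j ⊆ N k) := by
    intro j
    simp [hJ]
  have hIC : ∀ j ∈ J, I j ⊆ C := by
    intro j _ c hcI
    simp only [hI] at hcI
    split_ifs at hcI with h1
    · exact hcI
    · rw [Finset.mem_sdiff] at hcI
      rw [hC, Finset.mem_compl]
      exact hcI.2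
  set L : Finset (Fin n) := Finset.univ.filter (fun l => l < k ∧ N l ⊆ N k) with hL
  have hNsum : ∑ c ∈ N k, v k c = L.card := hN.2 k
  have hsplit : ∑ c ∈ C, v k c + ∑ c ∈ N k, v k c = n - 1 := by
    rw [← hv k, hC, Finset.sum_compl_add_sum]
  have hcardJ : J.card + L.card + 1 = n := by
    have h1 : (Finset.univ : Finset (Fin n)) = insert k (J ∪ L) := by
      ext j
      simp only [Finset.mem_univ, Finset.mem_insert, Finset.mem_union, true_iff]
      by_cases hj : j = k
      · exact Or.inl hj
      · right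
        by_cases h2 : j < k ∧ N j ⊆ N k
        · right
          simp [hL, h2]
        · left
          exact (hmemJ j).2 ⟨hj, h2⟩
    have h2 : Disjoint J L := by
      rw [Finset.disjoint_left]
      intro j hj hj'
      have h3 : j < k ∧ N j ⊆ N k := by simpa [hL] using hj'
      exact ((hmemJ j).1 hj).2 h3
    have h3 : k ∉ J ∪ L := by
      intro h4
      rcases Finset.mem_union.1 h4 with h5 | h5
      · exact ((hmemJ k).1 h5).1 rfl
      · have h6 : k < k ∧ N k ⊆ N k := by simpa [hL] using h5
        exact lt_irrefl _ h6.1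
    have h4 := congrArg Finset.card h1
    rw [Finset.card_univ, Fintype.card_fin, Finset.card_insert_of_notMem h3,
      Finset.card_union_of_disjoint h2] at h4
    omega
  have htot : ∑ c ∈ C, v k c = J.card := by omega
  have hall : ∀ D ⊆ C, (J.filter (fun j => I j ⊆ D)).card ≤ ∑ c ∈ D, v k c := by
    intro D hD
    by_cases hDC : D = C
    · rw [hDC, htot]
      exact Finset.card_filter_le _ _
    · have h1 : (J.filter (fun j => I j ⊆ D)) ∪ L ⊆
          Finset.univ.filter (fun l => l < k ∧ N l ⊆ D ∪ N k) := by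
        intro j hj
        rw [Finset.mem_filter]
        refine ⟨Finset.mem_univ _, ?_⟩
        rcases Finset.mem_union.1 hj with hj1 | hj1
        · obtain ⟨hjJ, hjI⟩ := Finset.mem_filter.1 hj1
          have hjk := ((hmemJ j).1 hjJ).1
          have hnlt : ¬ k < j := by
            intro hlt
            apply hDC
            apply Finset.Subset.antisymm hD
            simp only [hI, if_pos hlt] at hjI
            exact hjI
          refine ⟨lt_of_le_of_ne (not_lt.1 hnlt) hjk, ?_⟩
          simp only [hI, if_neg hnlt] at hjI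
          intro c hcN
          by_cases hck : c ∈ N k
          · exact Finset.mem_union_right _ hck
          · exact Finset.mem_union_left _ (hjI (Finset.mem_sdiff.2 ⟨hcN, hck⟩))
        · have h3 : j < k ∧ N j ⊆ N k := by simpa [hL] using hj1
          exact ⟨h3.1, h3.2.trans Finset.subset_union_right⟩
      have h2 : Disjoint (J.filter (fun j => I j ⊆ D)) L := by
        rw [Finset.disjoint_left]
        intro j hj hj'
        have h3 : j < k ∧ N j ⊆ N k := by simpa [hL] using hj'
        exact ((hmemJ j).1 (Finset.mem_filter.1 hj).1).2 h3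
      have h3 := Finset.card_le_card h1
      rw [Finset.card_union_of_disjoint h2] at h3
      have h4 := hN.1 k (D ∪ N k)
      have h5 : Disjoint D (N k) := by
        rw [Finset.disjoint_left]
        intro c hcD hcN
        have := hD hcD
        rw [hC, Finset.mem_compl] at this
        exact this hcN
      rw [Finset.sum_union h5] at h4
      omega
  have hkJ : k ∉ J := fun h => ((hmemJ k).1 h).1 rfl
  obtain ⟨w', hw', hgen', hM, φ, hφ, hφc⟩ :=
    row_step hd w hgen k C J hkJ I hIC (v k) htot hall (3 * B + 1)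
  have hNk : ∀ c ∈ N k, w' k c = w k c := by
    intro c hcN
    apply hw'
    right
    rw [hC, Finset.mem_compl]
    exact fun h => h hcN
  have hne : ∀ i, i ≠ k → ∀ c, w' i c = w i c := fun i hi c => hw' i c (Or.inl hi)
  have hbd : ∀ i c, -B ≤ w i c ∧ w i c ≤ B := fun i c => abs_le.1 (hB i c)
  have hCM : ∀ c, c ∉ N k → 3 * B + 1 ≤ w' k c := by
    intro c hcN
    apply hM
    rw [hC, Finset.mem_compl]
    exact hcN
  set σ' : Fin n → Fin n → Fin d := fun i j => if i = k then (if j < k ∧ N j ⊆ N k then τ k j else φ j)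
    else σ i j with hσ'
  have hσk1 : ∀ j, j < k → N j ⊆ N k → σ' k j = τ k j := by
    intro j h1 h2
    simp [hσ', h1, h2]
  have hσk2 : ∀ j, j ∈ J → σ' k j = φ j := by
    intro j h1
    have h2 := ((hmemJ j).1 h1).2
    simp only [hσ', if_true, if_neg h2]
  have hσne : ∀ i, i ≠ k → ∀ j, σ' i j = σ i j := by
    intro i hi j
    simp [hσ', hi]
  refine ⟨w', σ', hgen', ?_, ?_, ?_, ?_, ?_⟩
  · intro i c hcN
    by_cases hi : i = k
    · subst hi
      rw [hNk c hcN, h0 _ c hcN]
    · rw [hne i hi, h0 i c hcN]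
  · -- (a)
    intro k' l hk' hl
    by_cases hkk : k' = k
    · subst hkk
      have hlk : l ≠ k' := ne_of_lt hl
      by_cases hsub : N l ⊆ N k'
      · rw [hσk1 l hl hsub]
        obtain ⟨h1, h2⟩ := hτ k' l hl hsub
        refine ⟨h1, ?_⟩
        intro c hcN hcne
        rw [hne l hlk, hne l hlk, hNk _ (hsub h1), hNk _ (hsub hcN), h0 _ _ h1, h0 _ _ hcN,
          h0 _ _ (hsub h1), h0 _ _ (hsub hcN)]
        exact h2 c hcN hcne
      · have hlJ : l ∈ J := (hmemJ l).2 ⟨hlk, fun h => hsub h.2⟩
        rw [hσk2 l hlJ]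
        obtain ⟨h1, h2⟩ := hφ l hlJ
        have hIl : I l = N l \ N k' := by
          simp only [hI, if_neg (not_lt.2 hl.le)]
        rw [hIl] at h1 h2
        have h3 := Finset.mem_sdiff.1 h1
        refine ⟨h3.1, ?_⟩
        intro c hcN hcne
        by_cases hck : c ∈ N k'
        · have e1 := hCM (φ l) h3.2
          rw [hne l hlk, hne l hlk, hNk c hck]
          have e2 := hbd l (φ l)
          have e3 := hbd l c
          have e4 := hbd k' c
          linarith [e2.1, e2.2, e3.1, e3.2, e4.1, e4.2]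
        · exact h2 c (Finset.mem_sdiff.2 ⟨hcN, hck⟩) hcne
    · have hk2 : k.val + 1 ≤ k'.val := by
        have : k.val ≠ k'.val := fun h => hkk (Fin.ext h.symm)
        omega
      rw [hσne k' hkk]
      obtain ⟨h1, h2⟩ := ha k' l hk2 hl
      refine ⟨h1, ?_⟩
      intro c hcN hcne
      have h3 := h2 c hcN hcne
      rw [hne k' hkk, hne k' hkk]
      by_cases hlk : l = k
      · subst hlk
        rw [hNk _ h1, hNk _ hcN]
        exact h3
      · rw [hne l hlk, hne l hlk]
        exact h3
  · -- (b)
    intro k' j hk' hj c hcne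
    by_cases hkk : k' = k
    · subst hkk
      have hjk : j ≠ k' := ne_of_gt hj
      have hjJ : j ∈ J := (hmemJ j).2 ⟨hjk, fun h => absurd h.1 (not_lt.2 hj.le)⟩
      rw [hσk2 j hjJ] at hcne ⊢
      obtain ⟨h1, h2⟩ := hφ j hjJ
      have hIj : I j = C := by
        simp only [hI, if_pos hj]
      rw [hIj] at h1 h2
      have h3 : φ j ∉ N k' := by
        rw [hC, Finset.mem_compl] at h1
        exact h1
      by_cases hck : c ∈ N k'
      · have e1 := hCM (φ j) h3
        rw [hne j hjk, hne j hjk, hNk c hck]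
        have e2 := hbd j (φ j)
        have e3 := hbd j c
        have e4 := hbd k' c
        linarith [e2.1, e2.2, e3.1, e3.2, e4.1, e4.2]
      · exact h2 c (by rw [hC, Finset.mem_compl]; exact hck) hcne
    · have hk2 : k.val + 1 ≤ k'.val := by
        have : k.val ≠ k'.val := fun h => hkk (Fin.ext h.symm)
        omega
      have hjk : j ≠ k := by
        intro h
        subst h
        have : k'.val < j.val := hj
        omega
      rw [hσne k' hkk] at hcne ⊢
      rw [hne k' hkk, hne k' hkk, hne j hjk, hne j hjk]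
      exact hb k' j hk2 hj c hcne
  · -- (c)
    intro k' l hk' hl' hl c hcne
    by_cases hkk : k' = k
    · subst hkk
      have : l.val < k'.val := hl
      omega
    · have hk2 : k.val + 1 ≤ k'.val := by
        have : k.val ≠ k'.val := fun h => hkk (Fin.ext h.symm)
        omega
      rw [hσne k' hkk] at hcne ⊢
      rw [hne k' hkk, hne k' hkk]
      by_cases hlk : l = k
      · subst hlk
        obtain ⟨h1, h2⟩ := ha k' l hk2 hl
        by_cases hcl : c ∈ N l
        · rw [hNk _ h1, hNk _ hcl]
          exact h2 c hcl hcne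
        · have e1 := hCM c hcl
          rw [hNk _ h1]
          have e2 := hbd l (σ k' l)
          have e3 := hbd k' (σ k' l)
          have e4 := hbd k' c
          linarith [e2.1, e2.2, e3.1, e3.2, e4.1, e4.2]
      · have hl2 : k.val + 1 ≤ l.val := by
          have : k.val ≠ l.val := fun h => hlk (Fin.ext h.symm)
          omega
        rw [hne l hlk, hne l hlk]
        exact hc k' l hk2 hl2 hl c hcne
  · -- (d)
    intro k' hk' c
    by_cases hkk : k' = k
    · subst hkk
      by_cases hck : c ∈ N k'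
      · rw [← hcount k' c hck]
        congr 1
        ext j
        simp only [Finset.mem_filter, Finset.mem_univ, true_and]
        constructor
        · rintro ⟨h1, h2⟩
          by_cases h3 : j < k' ∧ N j ⊆ N k'
          · rw [hσk1 j h3.1 h3.2] at h2
            exact ⟨h3.1, h3.2, h2⟩
          · exfalso
            have hjJ : j ∈ J := (hmemJ j).2 ⟨h1, h3⟩
            rw [hσk2 j hjJ] at h2
            have h4 := hIC j hjJ (hφ j hjJ).1
            rw [hC, Finset.mem_compl, h2] at h4
            exact h4 hck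
        · rintro ⟨h1, h2, h3⟩
          refine ⟨ne_of_lt h1, ?_⟩
          rw [hσk1 j h1 h2]
          exact h3
      · have hcC : c ∈ C := by
          rw [hC, Finset.mem_compl]
          exact hck
        rw [← hφc c hcC]
        congr 1
        ext j
        simp only [Finset.mem_filter, Finset.mem_univ, true_and]
        constructor
        · rintro ⟨h1, h2⟩
          by_cases h3 : j < k' ∧ N j ⊆ N k'
          · exfalso
            rw [hσk1 j h3.1 h3.2] at h2
            have h4 := (hτ k' j h3.1 h3.2).1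
            rw [h2] at h4
            exact hck (h3.2 h4)
          · have hjJ : j ∈ J := (hmemJ j).2 ⟨h1, h3⟩
            rw [hσk2 j hjJ] at h2
            exact ⟨hjJ, h2⟩
        · rintro ⟨h1, h2⟩
          refine ⟨((hmemJ j).1 h1).1, ?_⟩
          rw [hσk2 j h1]
          exact h2
    · have hk2 : k.val + 1 ≤ k'.val := by
        have : k.val ≠ k'.val := fun h => hkk (Fin.ext h.symm)
        omega
      have h1 := hdd k' hk2 c
      rw [← h1]
      congr 1
      ext j
      simp only [Finset.mem_filter, Finset.mem_univ, true_and]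
      rw [hσne k' hkk]

/-- SO-8 (phase 2). -/
theorem exists_weights {n d : ℕ} (hn : 1 ≤ n) (hd : 1 ≤ d) (v : Fin n → Fin d → ℕ)
    (hv : ∀ i, ∑ k, v i k = n - 1) (N : Fin n → Finset (Fin d)) (hN : IsLadder v N) :
    ∃ (w : Fin n → Fin d → ℝ) (σ : Fin n → Fin n → Fin d), Generic w ∧
      (∀ i j, i ≠ j → ∀ k, k ≠ σ i j → w j (σ i j) - w i (σ i j) < w j k - w i k) ∧
      (∀ i k, v i k = (Finset.univ.filter (fun j => j ≠ i ∧ σ i j = k)).card) := by
  classical
  obtain ⟨w0, τ, hgen0, hτ, hcount⟩ := phase_one hd v N hN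
  have key : ∀ r : ℕ, r ≤ n → ∃ (w : Fin n → Fin d → ℝ) (σ : Fin n → Fin n → Fin d),
      EWInv v N w0 w σ (n - r) := by
    intro r
    induction r with
    | zero =>
      intro _
      refine ⟨w0, τ, hgen0, fun i c _ => rfl, ?_, ?_, ?_, ?_⟩
      · intro k l hk
        exact absurd k.isLt (by omega)
      · intro k l hk
        exact absurd k.isLt (by omega)
      · intro k l hk
        exact absurd k.isLt (by omega)
      · intro k hk
        exact absurd k.isLt (by omega)
    | succ r ih =>
      intro hr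
      obtain ⟨w, σ, hinv⟩ := ih (by omega)
      have hk : n - (r + 1) < n := by omega
      have h1 : n - r = (⟨n - (r + 1), hk⟩ : Fin n).val + 1 := by
        simp only
        omega
      rw [h1] at hinv
      exact ew_step hd v hv N hN w0 τ hτ hcount ⟨n - (r + 1), hk⟩ w σ hinv
  obtain ⟨w, σ, hgen, _, _, hb, hc, hdd⟩ := key n le_rfl
  rw [Nat.sub_self] at hb hc hdd
  refine ⟨w, σ, hgen, ?_, ?_⟩
  · intro i j hij k hk
    rcases lt_or_gt_of_ne hij with h1 | h1
    · exact hb i j (Nat.zero_le _) h1 k hk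
    · exact hc i j (Nat.zero_le _) (Nat.zero_le _) h1 k hk
  · intro i k
    exact (hdd i (Nat.zero_le _) k).symm

end Pool.Agent.Helper28.SO
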